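import Pool.Agent.K1H22.SR.Stm

/-!
Project SR (helper22), piece PUMP: every derived weight is a small one plus weights of loops in a
finite set.
-/

set_option autoImplicit false

namespace Pool.Agent.K1H65.SR

open Pool.Agent.K1H22.SR

section
variable {Q : Type} (R : Finset (Q × Q × Q)) (Bs : Finset (Q × (ℕ × ℕ)))

/-- derivations of height at most `h` -/
inductive DH : ℕ → Q → ℕ × ℕ → Prop
  | base {h : ℕ} {X : Q} {v : ℕ × ℕ} : (X, v) ∈ Bs → DH (h + 1) X v
  | node {h : ℕ} {X Y Z : Q} {a b : ℕ × ℕ} : (X, Y, Z) ∈ R → DH h Y a → DH h Z b →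
      DH (h + 1) X (a + b)

/-- contexts of height at most `h` -/
inductive CH : ℕ → Q → Q → ℕ × ℕ → Prop
  | refl {h : ℕ} {X : Q} : CH h X X 0
  | left {h : ℕ} {X Y Z H : Q} {a b : ℕ × ℕ} : (X, Y, Z) ∈ R → CH h Y H a → DH R Bs h Z b →
      CH (h + 1) X H (a + b)
  | right {h : ℕ} {X Y Z H : Q} {a b : ℕ × ℕ} : (X, Y, Z) ∈ R → DH R Bs h Y a → CH h Z H b →
      CH (h + 1) X H (a + b)

/-- derivations with height and size -/
inductive DS : ℕ → ℕ → Q → ℕ × ℕ → Prop
  | base {X : Q} {v : ℕ × ℕ} : (X, v) ∈ Bs → DS 1 1 X v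
  | node {h1 h2 s1 s2 : ℕ} {X Y Z : Q} {a b : ℕ × ℕ} : (X, Y, Z) ∈ R → DS h1 s1 Y a →
      DS h2 s2 Z b → DS (max h1 h2 + 1) (s1 + s2 + 1) X (a + b)

variable {R Bs}

theorem DH.mono {h h' : ℕ} {X : Q} {v : ℕ × ℕ} (hd : DH R Bs h X v) (hle : h ≤ h') :
    DH R Bs h' X v := by
  induction hd generalizing h' with
  | base hb =>
    obtain ⟨k, rfl⟩ : ∃ k, h' = k + 1 := ⟨h' - 1, by omega⟩
    exact DH.base hb
  | node hr _ _ ih1 ih2 =>
    obtain ⟨k, rfl⟩ : ∃ k, h' = k + 1 := ⟨h' - 1, by omega⟩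
    exact DH.node hr (ih1 (by omega)) (ih2 (by omega))

theorem CH.mono {h h' : ℕ} {X H : Q} {v : ℕ × ℕ} (hc : CH R Bs h X H v) (hle : h ≤ h') :
    CH R Bs h' X H v := by
  induction hc generalizing h' with
  | refl => exact CH.refl
  | left hr _ hd ih =>
    obtain ⟨k, rfl⟩ : ∃ k, h' = k + 1 := ⟨h' - 1, by omega⟩
    exact CH.left hr (ih (by omega)) (hd.mono (by omega))
  | right hr hd _ ih =>
    obtain ⟨k, rfl⟩ : ∃ k, h' = k + 1 := ⟨h' - 1, by omega⟩
    exact CH.right hr (hd.mono (by omega)) (ih (by omega))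

theorem DH.der {h : ℕ} {X : Q} {v : ℕ × ℕ} (hd : DH R Bs h X v) : Der R Bs X v := by
  induction hd with
  | base hb => exact Der.base hb
  | node hr _ _ ih1 ih2 => exact Der.node hr ih1 ih2

theorem CH.ctx {h : ℕ} {X H : Q} {v : ℕ × ℕ} (hc : CH R Bs h X H v) : Ctx R Bs X H v := by
  induction hc with
  | refl => exact Ctx.refl
  | left hr _ hd ih => exact Ctx.left hr ih hd.der
  | right hr hd _ ih => exact Ctx.right hr hd.der ih

theorem DS.dh {h s : ℕ} {X : Q} {v : ℕ × ℕ} (hd : DS R Bs h s X v) : DH R Bs h X v := by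
  induction hd with
  | base hb => exact DH.base hb
  | node hr _ _ ih1 ih2 =>
    exact DH.node hr (ih1.mono (le_max_left _ _)) (ih2.mono (le_max_right _ _))

theorem DS.of_der {X : Q} {v : ℕ × ℕ} (hd : Der R Bs X v) : ∃ h s, DS R Bs h s X v := by
  induction hd with
  | base hb => exact ⟨1, 1, DS.base hb⟩
  | node hr _ _ ih1 ih2 =>
    obtain ⟨h1, s1, d1⟩ := ih1
    obtain ⟨h2, s2, d2⟩ := ih2
    exact ⟨_, _, DS.node hr d1 d2⟩

theorem DH.finite (h : ℕ) : ∀ X : Q, {v : ℕ × ℕ | DH R Bs h X v}.Finite := by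
  induction h with
  | zero =>
    intro X
    refine Set.Finite.subset Set.finite_empty ?_
    intro v hv
    cases hv
  | succ h ih =>
    intro X
    have h1 : (Prod.snd '' (Bs : Set (Q × (ℕ × ℕ)))).Finite := Bs.finite_toSet.image _
    have h2 : (⋃ r ∈ (R : Set (Q × Q × Q)), Set.image2 (fun a b : ℕ × ℕ => a + b)
        {v : ℕ × ℕ | DH R Bs h r.2.1 v} {v : ℕ × ℕ | DH R Bs h r.2.2 v}).Finite :=
      R.finite_toSet.biUnion fun r _ => (ih r.2.1).image2 _ (ih r.2.2)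
    refine (h1.union h2).subset ?_
    intro v hv
    cases hv with
    | base hb => exact Or.inl ⟨_, hb, rfl⟩
    | @node _ _ Y Z a b hr ha hb =>
      refine Or.inr ?_
      rw [Set.mem_iUnion₂]
      exact ⟨(X, Y, Z), hr, a, ha, b, hb, rfl⟩

theorem CH.finite (h : ℕ) : ∀ X H : Q, {v : ℕ × ℕ | CH R Bs h X H v}.Finite := by
  induction h with
  | zero =>
    intro X H
    refine Set.Finite.subset (Set.finite_singleton 0) ?_
    intro v hv
    cases hv
    rfl
  | succ h ih =>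
    intro X H
    have h2 : (⋃ r ∈ (R : Set (Q × Q × Q)), Set.image2 (fun a b : ℕ × ℕ => a + b)
        {v : ℕ × ℕ | CH R Bs h r.2.1 H v} {v : ℕ × ℕ | DH R Bs h r.2.2 v}).Finite :=
      R.finite_toSet.biUnion fun r _ => (ih r.2.1 H).image2 _ (DH.finite h r.2.2)
    have h3 : (⋃ r ∈ (R : Set (Q × Q × Q)), Set.image2 (fun a b : ℕ × ℕ => a + b)
        {v : ℕ × ℕ | DH R Bs h r.2.1 v} {v : ℕ × ℕ | CH R Bs h r.2.2 H v}).Finite :=
      R.finite_toSet.biUnion fun r _ => (DH.finite h r.2.1).image2 _ (ih r.2.2 H)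
    refine ((Set.finite_singleton (0 : ℕ × ℕ)).union (h2.union h3)).subset ?_
    intro v hv
    cases hv with
    | refl => exact Or.inl rfl
    | @left _ _ Y Z _ a b hr ha hb =>
      refine Or.inr (Or.inl ?_)
      rw [Set.mem_iUnion₂]
      exact ⟨(X, Y, Z), hr, a, ha, b, hb, rfl⟩
    | @right _ _ Y Z _ a b hr ha hb =>
      refine Or.inr (Or.inr ?_)
      rw [Set.mem_iUnion₂]
      exact ⟨(X, Y, Z), hr, a, ha, b, hb, rfl⟩

open Classical in
/-- the nonterminals with a rule -/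
noncomputable def lhs (R : Finset (Q × Q × Q)) (Bs : Finset (Q × (ℕ × ℕ))) : Finset Q :=
  R.image Prod.fst ∪ Bs.image Prod.fst

theorem DS.lhs {h s : ℕ} {X : Q} {v : ℕ × ℕ} (hd : DS R Bs h s X v) :
    X ∈ Pool.Agent.K1H65.SR.lhs R Bs := by
  classical
  unfold Pool.Agent.K1H65.SR.lhs
  rw [Finset.mem_union]
  cases hd with
  | base hb => exact Or.inr (Finset.mem_image.2 ⟨_, hb, rfl⟩)
  | node hr _ _ => exact Or.inl (Finset.mem_image.2 ⟨_, hr, rfl⟩)

/-- a loop can be removed -/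
def PA (R : Finset (Q × Q × Q)) (Bs : Finset (Q × (ℕ × ℕ))) (s : ℕ) (X : Q) (v : ℕ × ℕ) : Prop :=
  ∃ (H : Q) (l v' : ℕ × ℕ) (h' s' : ℕ), H ∈ lhs R Bs ∧ CH R Bs ((lhs R Bs).card + 1) H H l ∧
    (∃ a, Ctx R Bs X H a) ∧ (∃ b, Der R Bs H b) ∧ s' < s ∧ DS R Bs h' s' X v' ∧ v = v' + l

/-- different nonterminals on a path -/
def PB (R : Finset (Q × Q × Q)) (Bs : Finset (Q × (ℕ × ℕ))) (h s : ℕ) (X : Q) (v : ℕ × ℕ) : Prop :=
  ∃ F : Finset Q, F ⊆ lhs R Bs ∧ F.card = h ∧ ∀ H ∈ F, ∃ (c b : ℕ × ℕ) (h' s' : ℕ),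
    CH R Bs h X H c ∧ DS R Bs h' s' H b ∧ s' ≤ s ∧ v = c + b

theorem key {h s : ℕ} {X : Q} {v : ℕ × ℕ} (hd : DS R Bs h s X v) :
    PA R Bs s X v ∨ PB R Bs h s X v := by
  classical
  induction hd with
  | @base X v hb =>
    refine Or.inr ⟨{X}, ?_, Finset.card_singleton X, ?_⟩
    · rw [Finset.singleton_subset_iff]
      exact (DS.base hb : DS R Bs 1 1 X v).lhs
    · intro H hH
      rw [Finset.mem_singleton] at hH
      subst hH
      exact ⟨0, v, 1, 1, CH.refl, DS.base hb, le_rfl, (zero_add v).symm⟩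
  | @node h1 h2 s1 s2 X Y Z a b hr d1 d2 ih1 ih2 =>
    have dX : DS R Bs (max h1 h2 + 1) (s1 + s2 + 1) X (a + b) := DS.node hr d1 d2
    rcases ih1 with hA | hB1
    · obtain ⟨H, l, v', h', s', e1, e2, ⟨c, e3⟩, e4, e5, e6, e7⟩ := hA
      refine Or.inl ⟨H, l, v' + b, _, _, e1, e2, ⟨_, Ctx.left hr e3 d2.dh.der⟩, e4, ?_,
        DS.node hr e6 d2, ?_⟩
      · omega
      · rw [e7, add_right_comm]
    rcases ih2 with hA | hB2
    · obtain ⟨H, l, v', h', s', e1, e2, ⟨c, e3⟩, e4, e5, e6, e7⟩ := hA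
      refine Or.inl ⟨H, l, a + v', _, _, e1, e2, ⟨_, Ctx.right hr d1.dh.der e3⟩, e4, ?_,
        DS.node hr d1 e6, ?_⟩
      · omega
      · rw [e7, add_assoc]
    rcases le_total h2 h1 with hle | hle
    · -- the first child is the higher one
      obtain ⟨F, hF, hcard, hall⟩ := hB1
      have hmax : max h1 h2 = h1 := max_eq_left hle
      have hK : h1 ≤ (lhs R Bs).card := by rw [← hcard]; exact Finset.card_le_card hF
      rw [hmax] at dX ⊢
      have d2' : DH R Bs h1 Z b := d2.dh.mono hle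
      by_cases hX : X ∈ F
      · obtain ⟨c, b', h', s', f1, f2, f3, f4⟩ := hall X hX
        refine Or.inl ⟨X, c + b, b', h', s', dX.lhs, (CH.left hr f1 d2').mono (by omega),
          ⟨0, Ctx.refl⟩, ⟨_, dX.dh.der⟩, by omega, f2, ?_⟩
        rw [f4]
        abel
      · refine Or.inr ⟨insert X F, Finset.insert_subset dX.lhs hF, ?_, ?_⟩
        · rw [Finset.card_insert_of_notMem hX, hcard]
        · intro H hH
          rw [Finset.mem_insert] at hH
          rcases hH with rfl | hH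
          · exact ⟨0, a + b, _, _, CH.refl, dX, le_rfl, (zero_add _).symm⟩
          · obtain ⟨c, b', h', s', f1, f2, f3, f4⟩ := hall H hH
            refine ⟨c + b, b', h', s', CH.left hr f1 d2', f2, by omega, ?_⟩
            rw [f4]
            abel
    · obtain ⟨F, hF, hcard, hall⟩ := hB2
      have hmax : max h1 h2 = h2 := max_eq_right hle
      have hK : h2 ≤ (lhs R Bs).card := by rw [← hcard]; exact Finset.card_le_card hF
      rw [hmax] at dX ⊢
      have d1' : DH R Bs h2 Y a := d1.dh.mono hle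
      by_cases hX : X ∈ F
      · obtain ⟨c, b', h', s', f1, f2, f3, f4⟩ := hall X hX
        refine Or.inl ⟨X, a + c, b', h', s', dX.lhs, (CH.right hr d1' f1).mono (by omega),
          ⟨0, Ctx.refl⟩, ⟨_, dX.dh.der⟩, by omega, f2, ?_⟩
        rw [f4]
        abel
      · refine Or.inr ⟨insert X F, Finset.insert_subset dX.lhs hF, ?_, ?_⟩
        · rw [Finset.card_insert_of_notMem hX, hcard]
        · intro H hH
          rw [Finset.mem_insert] at hH
          rcases hH with rfl | hH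
          · exact ⟨0, a + b, _, _, CH.refl, dX, le_rfl, (zero_add _).symm⟩
          · obtain ⟨c, b', h', s', f1, f2, f3, f4⟩ := hall H hH
            refine ⟨a + c, b', h', s', CH.right hr d1' f1, f2, by omega, ?_⟩
            rw [f4]
            abel

end

theorem t_PUMP : S_PUMP := by
  intro Q R Bs
  classical
  have hLf : (⋃ H ∈ (lhs R Bs : Set Q), (fun l : ℕ × ℕ => (H, l)) ''
      {l : ℕ × ℕ | CH R Bs ((lhs R Bs).card + 1) H H l}).Finite :=
    (lhs R Bs).finite_toSet.biUnion fun H _ => (CH.finite _ H H).image _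
  have hCf : (⋃ H ∈ (lhs R Bs : Set Q), Prod.fst ''
      {l : ℕ × ℕ | DH R Bs (lhs R Bs).card H l}).Finite :=
    (lhs R Bs).finite_toSet.biUnion fun H _ => (DH.finite _ H).image _
  obtain ⟨C, hC⟩ := hCf.bddAbove
  have hmem : ∀ x : Q × (ℕ × ℕ), x ∈ hLf.toFinset ↔
      x.1 ∈ lhs R Bs ∧ CH R Bs ((lhs R Bs).card + 1) x.1 x.1 x.2 := by
    intro x
    rw [Set.Finite.mem_toFinset, Set.mem_iUnion₂]
    constructor
    · rintro ⟨H, hH, l, hl, rfl⟩
      exact ⟨hH, hl⟩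
    · rintro ⟨h1, h2⟩
      exact ⟨x.1, h1, x.2, h2, rfl⟩
  refine ⟨hLf.toFinset, C, fun x hx => ((hmem x).1 hx).2.ctx, ?_⟩
  have main : ∀ (s h : ℕ) (X : Q) (v : ℕ × ℕ), DS R Bs h s X v →
      ∃ (v0 : ℕ × ℕ) (L : List (Q × (ℕ × ℕ))), v0.1 ≤ C ∧
      (∀ x ∈ L, x ∈ hLf.toFinset ∧ (∃ a, Ctx R Bs X x.1 a) ∧ ∃ b, Der R Bs x.1 b) ∧
      v = v0 + (L.map Prod.snd).sum := by
    intro s
    induction s using Nat.strong_induction_on with
    | _ s ih =>
      intro h X v hd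
      rcases key hd with hA | hB
      · obtain ⟨H, l, v', h', s', e1, e2, e3, e4, e5, e6, e7⟩ := hA
        obtain ⟨v0, L, g1, g2, g3⟩ := ih s' e5 h' X v' e6
        refine ⟨v0, (H, l) :: L, g1, ?_, ?_⟩
        · intro x hx
          rcases List.mem_cons.1 hx with rfl | hx
          · exact ⟨(hmem _).2 ⟨e1, e2⟩, e3, e4⟩
          · exact g2 x hx
        · rw [List.map_cons, List.sum_cons, e7, g3]
          abel
      · obtain ⟨F, hF, hcard, -⟩ := hB
        have hK : h ≤ (lhs R Bs).card := by rw [← hcard]; exact Finset.card_le_card hF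
        refine ⟨v, [], ?_, fun x hx => by simp at hx, by simp⟩
        apply hC
        rw [Set.mem_iUnion₂]
        exact ⟨X, hd.lhs, v, hd.dh.mono hK, rfl⟩
  intro X v hd
  obtain ⟨h, s, hs⟩ := DS.of_der hd
  exact main s h X v hs

end Pool.Agent.K1H65.SR
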